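import Pool.Agent.Q27.CT.Main
import Pool.Agent.Q182.LkMain

/-!
# Nuclei which are unions of subgroups
-/

set_option autoImplicit false

namespace Q27.CT

open Monoid
open Pool.Agent.Y462.SS
open Pool.Agent.Y110.FJ (ClosedE)

variable {X G : Type} [Group G] {φ : G →* Wr X G}

/-- two subgroups -/
theorem nuc_pair {C : ∀ (G : Type) [Group G], Prop} (hC : Closed C) (A B : Subgroup G)
    (hA : C A) (hB : C B) (hAB : A ⊓ B = ⊥) : C (Nuc ((A : Set G) ∪ B)) := by
  classical
  obtain ⟨S, hS⟩ : ∃ S : Set G, S = (A : Set G) ∪ B := ⟨_, rfl⟩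
  rw [← hS]
  have hSA : ∀ a : A, (a : G) ∈ S := fun a => by
    rw [hS]
    exact Or.inl a.2
  have hSB : ∀ b : B, (b : G) ∈ S := fun b => by
    rw [hS]
    exact Or.inr b.2
  have hS' : ∀ s ∈ S, s ∉ A → s ∈ B := fun s hs h => by
    rw [hS] at hs
    exact hs.resolve_left h
  have h1 : ∀ x : G, x ∈ A → x ∈ B → x = 1 := fun x ha hb => by
    have h2 : x ∈ A ⊓ B := ⟨ha, hb⟩
    rwa [hAB, Subgroup.mem_bot] at h2
  let f : S → Coprod A B := fun s =>
    if h : (s : G) ∈ A then Coprod.inl ⟨s, h⟩ else Coprod.inr ⟨s, hS' s s.2 h⟩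
  have hfA : ∀ (s : S) (h : (s : G) ∈ A), f s = Coprod.inl ⟨s, h⟩ := fun s h => dif_pos h
  have hfB : ∀ (s : S) (h : (s : G) ∈ B), f s = Coprod.inr ⟨s, h⟩ := by
    intro s h
    by_cases hs : (s : G) ∈ A
    · rw [hfA s hs]
      have h2 := h1 s hs h
      have e1 : (⟨s, hs⟩ : A) = 1 := Subtype.ext h2
      have e2 : (⟨s, h⟩ : B) = 1 := Subtype.ext h2
      rw [e1, e2, map_one, map_one]
    · exact dif_neg hs
  obtain ⟨F, hF⟩ := exists_lift (S := S) f (by
    intro s t u h
    by_cases hsA : (s : G) ∈ A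
    · by_cases htA : (t : G) ∈ A
      · have huA : (u : G) ∈ A := by
          rw [← h]
          exact A.mul_mem hsA htA
        rw [hfA s hsA, hfA t htA, hfA u huA, ← map_mul]
        congr 1
        exact Subtype.ext h
      · have htB := hS' t t.2 htA
        have huA : (u : G) ∉ A := fun hu => htA (by
          have h3 : (t : G) = (s : G)⁻¹ * u := by
            rw [← h]
            group
          rw [h3]
          exact A.mul_mem (A.inv_mem hsA) hu)
        have huB := hS' u u.2 huA
        have hsB : (s : G) ∈ B := by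
          have h3 : (s : G) = u * (t : G)⁻¹ := by
            rw [← h]
            group
          rw [h3]
          exact B.mul_mem huB (B.inv_mem htB)
        rw [hfB s hsB, hfB t htB, hfB u huB, ← map_mul]
        congr 1
        exact Subtype.ext h
    · have hsB := hS' s s.2 hsA
      by_cases htB : (t : G) ∈ B
      · have huB : (u : G) ∈ B := by
          rw [← h]
          exact B.mul_mem hsB htB
        rw [hfB s hsB, hfB t htB, hfB u huB, ← map_mul]
        congr 1
        exact Subtype.ext h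
      · have htA : (t : G) ∈ A := by
          by_contra hn
          exact htB (hS' t t.2 hn)
        have huA : (u : G) ∉ A := fun hu => hsA (by
          have h3 : (s : G) = u * (t : G)⁻¹ := by
            rw [← h]
            group
          rw [h3]
          exact A.mul_mem hu (A.inv_mem htA))
        have huB := hS' u u.2 huA
        exfalso
        apply htB
        have h3 : (t : G) = (s : G)⁻¹ * u := by
          rw [← h]
          group
        rw [h3]
        exact B.mul_mem (B.inv_mem hsB) huB)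
  have hg1 : ∃ g1 : A →* Nuc S, ∀ a : A, g1 a = gn (a : G) (hSA a) :=
    ⟨MonoidHom.mk' (fun a => gn (a : G) (hSA a)) fun a b =>
      (gn_mul (hSA a) (hSA b) (hSA (a * b)) rfl).symm, fun _ => rfl⟩
  have hg2 : ∃ g2 : B →* Nuc S, ∀ b : B, g2 b = gn (b : G) (hSB b) :=
    ⟨MonoidHom.mk' (fun a => gn (a : G) (hSB a)) fun a b =>
      (gn_mul (hSB a) (hSB b) (hSB (a * b)) rfl).symm, fun _ => rfl⟩
  obtain ⟨g1, hg1⟩ := hg1
  obtain ⟨g2, hg2⟩ := hg2
  have hinv : (Coprod.lift g1 g2).comp F = MonoidHom.id _ := by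
    apply hom_ext
    intro s hs
    show Coprod.lift g1 g2 (F (PresentedGroup.of ⟨s, hs⟩)) = gn s hs
    rw [hF]
    by_cases h : s ∈ A
    · rw [hfA ⟨s, hs⟩ h, Coprod.lift_apply_inl, hg1]
    · rw [hfB ⟨s, hs⟩ (hS' s hs h), Coprod.lift_apply_inr, hg2]
  refine hC.of_injective _ _ F ?_ (hC.coprod A B hA hB)
  intro x y hxy
  have h2 := congrArg (Coprod.lift g1 g2) hxy
  have h3 := fun z => congrArg (fun f : Nuc S →* Nuc S => f z) hinv
  exact (h3 x).symm.trans (h2.trans (h3 y))

/-- families of subgroups -/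
theorem nuc_family {C : ∀ (G : Type) [Group G], Prop} (hC : ClosedE C) {ι : Type}
    (A : ι → Subgroup G) (hA : ∀ i, C (A i))
    (hAA : ∀ i j, ∀ s ∈ A i, ∀ t ∈ A j, (∃ k, s * t ∈ A k) → i = j ∨ s = 1 ∨ t = 1) :
    C (Nuc {s : G | ∃ i, s ∈ A i}) := by
  classical
  obtain ⟨S, hS⟩ : ∃ S : Set G, S = {s : G | ∃ i, s ∈ A i} := ⟨_, rfl⟩
  rw [← hS]
  have hSA : ∀ i (a : A i), (a : G) ∈ S := fun i a => by
    rw [hS]
    exact ⟨i, a.2⟩
  have hS' : ∀ s : S, ∃ i, (s : G) ∈ A i := fun s => hS.subset s.2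
  have hdis : ∀ i j, ∀ x ∈ A i, x ∈ A j → i = j ∨ x = 1 := by
    intro i j x hi hj
    rcases hAA i j x hi x⁻¹ ((A j).inv_mem hj) ⟨i, by rw [mul_inv_cancel]; exact (A i).one_mem⟩
      with h | h | h
    · exact Or.inl h
    · exact Or.inr h
    · exact Or.inr (inv_eq_one.1 h)
  choose c hc using hS'
  let f : S → CoprodI (fun i => A i) := fun s => CoprodI.of (M := fun i => A i) (i := c s) (⟨s, hc s⟩ : A (c s))
  have hf : ∀ (s : S) (i : ι) (h : (s : G) ∈ A i), f s = CoprodI.of (M := fun i => A i) (i := i) (⟨s, h⟩ : A i) := by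
    intro s i h
    rcases hdis i (c s) s h (hc s) with h1 | h1
    · subst h1
      rfl
    · have e1 : (⟨s, hc s⟩ : A (c s)) = 1 := Subtype.ext h1
      have e2 : (⟨s, h⟩ : A i) = 1 := Subtype.ext h1
      show CoprodI.of (M := fun i => A i) (i := c s) (⟨s, hc s⟩ : A (c s)) = _
      rw [e1, e2, map_one, map_one]
  obtain ⟨F, hF⟩ := exists_lift (S := S) f (by
    intro s t u h
    have hu0 : ∃ k, (s : G) * t ∈ A k := ⟨c u, by rw [h]; exact hc u⟩
    rcases hAA (c s) (c t) (s : G) (hc s) (t : G) (hc t) hu0 with h1 | h1 | h1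
    · have ht : (t : G) ∈ A (c s) := by
        rw [h1]
        exact hc t
      have hu : (u : G) ∈ A (c s) := by
        rw [← h]
        exact (A (c s)).mul_mem (hc s) ht
      rw [hf s _ (hc s), hf t _ ht, hf u _ hu, ← map_mul]
      congr 1
      exact Subtype.ext h
    · have hs : (s : G) ∈ A (c t) := by
        rw [h1]
        exact (A (c t)).one_mem
      have hu : (u : G) ∈ A (c t) := by
        rw [← h]
        exact (A (c t)).mul_mem hs (hc t)
      rw [hf s _ hs, hf t _ (hc t), hf u _ hu, ← map_mul]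
      congr 1
      exact Subtype.ext h
    · have ht : (t : G) ∈ A (c s) := by
        rw [h1]
        exact (A (c s)).one_mem
      have hu : (u : G) ∈ A (c s) := by
        rw [← h]
        exact (A (c s)).mul_mem (hc s) ht
      rw [hf s _ (hc s), hf t _ ht, hf u _ hu, ← map_mul]
      congr 1
      exact Subtype.ext h)
  let g : ∀ i, A i →* Nuc S := fun i => MonoidHom.mk' (fun a => gn (a : G) (hSA i a)) fun a b =>
    (gn_mul (hSA i a) (hSA i b) (hSA i (a * b)) rfl).symm
  have hinv : (CoprodI.lift g).comp F = MonoidHom.id _ := by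
    apply hom_ext
    intro s hs
    show CoprodI.lift g (F (PresentedGroup.of ⟨s, hs⟩)) = gn s hs
    rw [hF]
    show CoprodI.lift g (CoprodI.of (M := fun i => A i) (i := c ⟨s, hs⟩) (⟨s, hc ⟨s, hs⟩⟩ : A (c ⟨s, hs⟩))) = _
    rw [CoprodI.lift_of]
    rfl
  refine hC.base.of_injective _ _ F ?_ (Q182.Lk.coprodI_mem hC (fun i => A i) hA)
  intro x y hxy
  have h2 := congrArg (CoprodI.lift g) hxy
  have h3 := fun z => congrArg (fun f : Nuc S →* Nuc S => f z) hinv
  exact (h3 x).symm.trans (h2.trans (h3 y))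

/-- spinal groups: the sections of the elements of `A` are trivial, those of the elements of `B` are
in `A` or `B` -/
theorem isNuc_spinal (A B : Subgroup G) (hgen : A ⊔ B = ⊤)
    (hA : ∀ a ∈ A, ∀ x, (φ a).s x = 1) (hB : ∀ b ∈ B, ∀ x, (φ b).s x ∈ A ∨ (φ b).s x ∈ B) :
    IsNuc φ ((A : Set G) ∪ B) where
  one := Or.inl A.one_mem
  inv := by
    rintro s (h | h)
    · exact Or.inl (A.inv_mem h)
    · exact Or.inr (B.inv_mem h)
  sec := by
    rintro s (h | h) x
    · rw [hA s h x]
      exact Or.inl A.one_mem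
    · exact hB s h x
  gen := by
    rw [Subgroup.closure_union, Subgroup.closure_eq, Subgroup.closure_eq, hgen]
  falls := by
    have hsec : ∀ s ∈ ((A : Set G) ∪ B), ∀ x, (φ s).s x ∈ ((A : Set G) ∪ B) := by
      rintro s (h | h) x
      · rw [hA s h x]
        exact Or.inl A.one_mem
      · exact hB s h x
    rintro s hs t ht
    rcases hs with hs | hs
    · refine Falls.step _ fun x => Falls.mem _ ?_
      rw [map_mul, Wr.mul_s, hA s hs, one_mul]
      exact hsec t ht x
    · rcases ht with ht | ht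
      · refine Falls.step _ fun x => Falls.mem _ ?_
        rw [map_mul, Wr.mul_s, hA t ht, mul_one]
        exact hsec s (Or.inr hs) _
      · exact Falls.mem _ (Or.inr (B.mul_mem hs ht))

end Q27.CT
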