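import Pool.Agent.Q27.CT.Nuc

/-!
# Contracting self-similar groups
-/

set_option autoImplicit false

namespace Q27.CT

open Pool.Agent.Y462.SS
open Pool.Agent.Y331.SS (wmap wmap_s wmap_p t_lim)

variable {X G : Type} [Group G] {φ : G →* Wr X G} {S : Set G}

/-- the projection -/
theorem exists_proj (S : Set G) : ∃ p : Nuc S →* G, ∀ s (h : s ∈ S), p (gn s h) = s := by
  obtain ⟨F, hF⟩ := exists_lift (S := S) (fun s => (s : G)) (fun s t u h => h)
  exact ⟨F, fun s h => hF ⟨s, h⟩⟩

/-- the recursion on the group presented by the nucleus -/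
theorem exists_rec (hS : IsNuc φ S) : ∃ ψ : Nuc S →* Wr X (Nuc S),
    ∀ s (h : s ∈ S), ψ (gn s h) = ⟨fun x => gn ((φ s).s x) (hS.sec s h x), (φ s).p⟩ := by
  obtain ⟨F, hF⟩ := exists_lift (S := S) (H := Wr X (Nuc S))
    (fun s => ⟨fun x => gn ((φ s).s x) (hS.sec s s.2 x), (φ s).p⟩) (by
    intro s t u h
    apply Wr.ext
    · funext x
      show gn ((φ s).s ((φ t).p x)) _ * gn ((φ t).s x) _ = gn ((φ u).s x) _
      apply gn_mul
      rw [← h, map_mul]
      rfl
    · show (φ s).p * (φ t).p = (φ u).p
      rw [← h, map_mul]
      rfl)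
  exact ⟨F, fun s h => hF ⟨s, h⟩⟩

theorem hom_ext {H : Type} [Group H] {f g : Nuc S →* H} (h : ∀ s (hs : s ∈ S),
    f (gn s hs) = g (gn s hs)) : f = g :=
  PresentedGroup.ext fun s => h s s.2

theorem compat (hS : IsNuc φ S) {p : Nuc S →* G} (hp : ∀ s (h : s ∈ S), p (gn s h) = s)
    {ψ : Nuc S →* Wr X (Nuc S)} (hψ : ∀ s (h : s ∈ S),
      ψ (gn s h) = ⟨fun x => gn ((φ s).s x) (hS.sec s h x), (φ s).p⟩) (γ : Nuc S) :
    (φ (p γ)).p = (ψ γ).p ∧ ∀ x, (φ (p γ)).s x = p ((ψ γ).s x) := by
  have h1 : φ.comp p = (wmap p).comp ψ := by
    apply hom_ext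
    intro s hs
    show φ (p (gn s hs)) = wmap p (ψ (gn s hs))
    rw [hp, hψ]
    apply Wr.ext
    · funext x
      rw [wmap_s]
      show (φ s).s x = p (gn ((φ s).s x) _)
      rw [hp]
    · rfl
  have h2 : φ (p γ) = wmap p (ψ γ) := congrArg (fun f : Nuc S →* Wr X G => f γ) h1
  rw [h2]
  exact ⟨rfl, fun x => rfl⟩

/-- **the kernel consists of the elements which die** -/
theorem ker_dies (hφ : Function.Injective φ) (hS : IsNuc φ S) {p : Nuc S →* G}
    (hp : ∀ s (h : s ∈ S), p (gn s h) = s) {ψ : Nuc S →* Wr X (Nuc S)} (hψ : ∀ s (h : s ∈ S),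
      ψ (gn s h) = ⟨fun x => gn ((φ s).s x) (hS.sec s h x), (φ s).p⟩) (γ : Nuc S) :
    γ ∈ p.ker ↔ Dies ψ γ := by
  have hc := compat hS hp hψ
  constructor
  · -- products of `k` generators
    have key : ∀ (k : ℕ) (l : List S), l.length = k → p (wd l) = 1 → Dies ψ (wd l) := by
      intro k
      induction k using Nat.strong_induction_on with
      | _ k ih =>
        intro l hl h
        match l, hl, h with
        | [], _, _ => exact Dies.one
        | [s], _, h =>
          have h1 : (s : G) = 1 := by
            rw [← hp s s.2, ← h]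
            simp [wd, gn]
          have h2 : (wd [s] : Nuc S) = 1 := by
            have h3 : (wd [s] : Nuc S) = gn (s : G) s.2 := by simp [wd, gn]
            rw [h3, ← gn_one hS]
            exact gn_congr _ _ h1
          rw [h2]
          exact Dies.one
        | s :: t :: l, hl, h =>
          have hstep : ∀ g : G, Falls φ S g → ∀ (s t : S) (l : List S), (s : G) * t = g →
              l.length + 2 = k → p (wd (s :: t :: l)) = 1 → Dies ψ (wd (s :: t :: l)) := by
            intro g hg
            induction hg with
            | mem g hg =>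
              intro s t l hst hl h
              have h1 : (wd (s :: t :: l) : Nuc S) = wd (⟨g, hg⟩ :: l) := by
                have h2 := gn_mul s.2 t.2 hg hst
                unfold gn at h2
                simp only [wd, List.map_cons, List.prod_cons]
                rw [← mul_assoc]
                congr 1
              rw [h1] at h ⊢
              exact ih (l.length + 1) (by omega) _ (by simp) h
            | step g _ ihg =>
              intro s t l hst hl h
              have h1 := hc (wd (s :: t :: l))
              rw [h, map_one] at h1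
              refine Dies.step _ h1.1.symm fun x => ?_
              -- the sections of a word
              have hw : ∀ (l : List S) (x : X), ∃ l' : List S, l'.length = l.length ∧
                  (ψ (wd l)).s x = wd l' := by
                intro l
                induction l with
                | nil =>
                  intro x
                  refine ⟨[], rfl, ?_⟩
                  show (ψ 1).s x = 1
                  rw [map_one]
                  rfl
                | cons a l ihl =>
                  intro x
                  obtain ⟨l', h2, h3⟩ := ihl x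
                  refine ⟨⟨(φ a).s ((ψ (wd l)).p x), hS.sec a a.2 _⟩ :: l', by simp [h2], ?_⟩
                  have h4 : (wd (a :: l) : Nuc S) = gn (a : G) a.2 * wd l := by simp [wd, gn]
                  rw [h4, map_mul, Wr.mul_s, h3, hψ]
                  simp [wd, gn]
              obtain ⟨l', h2, h3⟩ := hw l x
              have h4 : (wd (s :: t :: l) : Nuc S) = gn (s : G) s.2 * (gn (t : G) t.2 * wd l) := by
                simp [wd, gn]
              obtain ⟨y, hy⟩ : ∃ y, y = (ψ (wd l)).p x := ⟨_, rfl⟩
              have h5 : (ψ (wd (s :: t :: l))).s x =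
                  wd (⟨(φ s).s ((φ t).p y), hS.sec s s.2 _⟩ ::
                    ⟨(φ t).s y, hS.sec t t.2 _⟩ :: l') := by
                rw [h4, map_mul, map_mul, Wr.mul_s, Wr.mul_s, Wr.mul_p, h3, hψ, hψ, hy]
                simp [wd, gn]
              rw [h5]
              refine ihg y _ _ l' ?_ (by rw [h2]; exact hl) ?_
              · show (φ s).s ((φ t).p y) * (φ t).s y = (φ g).s y
                rw [← hst, map_mul]
                rfl
              · rw [← h5, ← h1.2 x]
                rfl
          exact hstep _ (hS.falls s s.2 t t.2) s t l rfl hl h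
    intro h
    obtain ⟨l, rfl⟩ := exists_word hS γ
    exact key _ l rfl h
  · intro h
    induction h with
    | one => exact one_mem _
    | step γ h1 _ ih =>
      rw [MonoidHom.mem_ker]
      apply hφ
      rw [map_one]
      apply Wr.ext
      · funext x
        rw [(hc γ).2 x]
        exact ih x
      · rw [(hc γ).1, h1]
        rfl

/-- **contracting groups** -/
theorem main {C : ∀ (G : Type) [Group G], Prop} (hC : Closed C) [Finite X]
    (hφ : Function.Injective φ) (hS : IsNuc φ S) (hN : C (Nuc S)) : C G := by
  obtain ⟨p, hp⟩ := exists_proj S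
  obtain ⟨ψ, hψ⟩ := exists_rec hS
  have h1 : C (Nuc S ⧸ p.ker) := t_lim Pool.Agent.Y812.SS.t_wr C hC X (Nuc S) inferInstance ψ hN
    p.ker (ker_dies hφ hS hp hψ)
  have hsurj : Function.Surjective p := by
    rw [← MonoidHom.range_eq_top, ← top_le_iff, ← hS.gen, Subgroup.closure_le]
    intro s hs
    exact ⟨gn s hs, hp s hs⟩
  exact hC.of_injective G _ (QuotientGroup.quotientKerEquivOfSurjective p hsurj).symm.toMonoidHom
    (QuotientGroup.quotientKerEquivOfSurjective p hsurj).symm.injective h1

end Q27.CT
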