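import Pool.Agent.Y331.SS.Lim
import Pool.Agent.Y812.SS.Wr

/-!
# Contracting self-similar groups: the group presented by the nucleus
-/

set_option autoImplicit false

namespace Q27.CT

open Pool.Agent.Y462.SS

variable {X G : Type} [Group G]

/-- after finitely many steps all sections of `g` are in `S` -/
inductive Falls (φ : G →* Wr X G) (S : Set G) : G → Prop
  | mem (g : G) : g ∈ S → Falls φ S g
  | step (g : G) : (∀ x, Falls φ S ((φ g).s x)) → Falls φ S g

/-- the relations `s t = u` between the elements of `S` which hold in `G` -/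
def nrel (S : Set G) : Set (FreeGroup S) :=
  {r | ∃ s t u : S, (s : G) * t = u ∧ r = FreeGroup.of s * FreeGroup.of t * (FreeGroup.of u)⁻¹}

/-- the group generated by the elements of `S` subject to the relations `s t = u` which hold in
`G` -/
abbrev Nuc (S : Set G) : Type := PresentedGroup (nrel S)

/-- a nucleus: a generating set which contains `1`, the inverses and the sections of its elements,
so that the products of two elements fall into it -/
structure IsNuc (φ : G →* Wr X G) (S : Set G) : Prop where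
  one : (1 : G) ∈ S
  inv : ∀ s ∈ S, s⁻¹ ∈ S
  sec : ∀ s ∈ S, ∀ x, (φ s).s x ∈ S
  gen : Subgroup.closure S = ⊤
  falls : ∀ s ∈ S, ∀ t ∈ S, Falls φ S (s * t)

/-- the generators -/
def gn {S : Set G} (s : G) (h : s ∈ S) : Nuc S := PresentedGroup.of ⟨s, h⟩

theorem gn_mul {S : Set G} {s t u : G} (hs : s ∈ S) (ht : t ∈ S) (hu : u ∈ S) (h : s * t = u) :
    gn s hs * gn t ht = gn u hu := by
  have h1 := PresentedGroup.one_of_mem (rels := nrel S)
    (x := FreeGroup.of ⟨s, hs⟩ * FreeGroup.of ⟨t, ht⟩ * (FreeGroup.of ⟨u, hu⟩)⁻¹)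
    ⟨⟨s, hs⟩, ⟨t, ht⟩, ⟨u, hu⟩, h, rfl⟩
  rw [map_mul, map_mul, map_inv, mul_inv_eq_one] at h1
  exact h1

theorem gn_congr {S : Set G} {s t : G} (hs : s ∈ S) (ht : t ∈ S) (h : s = t) :
    gn s hs = gn t ht := by
  subst h
  rfl

/-- homomorphisms of the group presented by the nucleus -/
theorem exists_lift {S : Set G} {H : Type} [Group H] (f : S → H)
    (hf : ∀ s t u : S, (s : G) * t = u → f s * f t = f u) :
    ∃ F : Nuc S →* H, ∀ s : S, F (PresentedGroup.of s) = f s := by
  have h1 : ∀ r ∈ nrel S, FreeGroup.lift f r = 1 := by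
    rintro r ⟨s, t, u, h, rfl⟩
    rw [map_mul, map_mul, map_inv, FreeGroup.lift_apply_of, FreeGroup.lift_apply_of,
      FreeGroup.lift_apply_of, hf s t u h, mul_inv_cancel]
  exact ⟨PresentedGroup.toGroup h1, fun s => PresentedGroup.toGroup.of h1⟩

section

variable {φ : G →* Wr X G} {S : Set G} (hS : IsNuc φ S)

include hS in
theorem gn_one : gn (1 : G) hS.one = 1 := by
  have h1 := gn_mul hS.one hS.one hS.one (mul_one (1 : G))
  exact mul_eq_left.1 h1

include hS in
theorem gn_inv {s : G} (hs : s ∈ S) : (gn s hs)⁻¹ = gn s⁻¹ (hS.inv s hs) := by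
  rw [inv_eq_iff_mul_eq_one, gn_mul hs (hS.inv s hs) hS.one (mul_inv_cancel s), gn_one hS]

/-- the product of the generators of a list -/
def wd (l : List S) : Nuc S := (l.map fun s => (PresentedGroup.of s : Nuc S)).prod

include hS in
/-- all elements are products of generators -/
theorem exists_word (γ : Nuc S) : ∃ l : List S, γ = wd l := by
  have h1 : γ ∈ Subgroup.closure (Set.range (PresentedGroup.of : S → Nuc S)) := by
    rw [PresentedGroup.closure_range_of]
    exact Subgroup.mem_top γ
  induction h1 using Subgroup.closure_induction with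
  | mem x hx =>
    obtain ⟨s, rfl⟩ := hx
    exact ⟨[s], by simp [wd]⟩
  | one => exact ⟨[], rfl⟩
  | mul x y _ _ hx hy =>
    obtain ⟨l, rfl⟩ := hx
    obtain ⟨l', rfl⟩ := hy
    exact ⟨l ++ l', by simp [wd]⟩
  | inv x _ hx =>
    obtain ⟨l, rfl⟩ := hx
    refine ⟨(l.map fun s => ⟨(s : G)⁻¹, hS.inv s s.2⟩).reverse, ?_⟩
    unfold wd
    rw [List.prod_inv_reverse, List.map_reverse, List.map_map, List.map_map]
    congr 2
    apply List.map_congr_left
    intro s _
    exact gn_inv hS s.2

end

end Q27.CT
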